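import Mathlib
import Pool.Agent.R373.NFI.Gen
import Pool.Agent.R461.GC.G8

set_option autoImplicit false

/-!
The divisor problem along `b_n α ^ (a_n)`: the error terms at the points `b_n α ^ (a_n) α ^ j` behave like independent
random variables with the law of the error term.
-/

open MeasureTheory Filter Topology Set Real
open Pool.Agent.H383.AP
open Pool.Agent.H383.Gen (U Bd Ap rt)
open Pool.Agent.H383.GW (Wt Sand)
open Pool.Agent.H387R2.Vor (Ed Del Dsum dv)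
open Pool.Agent.H383.Div (E2 ad ad_zero wd wd_Wt vor Dx Ed_quad)
open Pool.Agent.H452R2.Win (Bdw SandW E2_SandW ad_Bdw2)
open Pool.Agent.R306.GP
open Pool.Agent.R461.GC

namespace Pool.Agent.D0H48.Pz

/-- the law of the divisor problem, with the uniform distribution and along powers -/
theorem div_iid : ∃ (ν : ProbabilityMeasure ℝ) (G : ℂ → ℂ),
    Differentiable ℂ G ∧ (∀ x : ℝ, 0 ≤ (G x).re ∧ (G x).im = 0) ∧
    (ν : Measure ℝ) = volume.withDensity (fun x : ℝ => ENNReal.ofReal (G x).re) ∧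
    (∀ u v : ℝ, u < v → 0 < (ν : Measure ℝ) (Set.Ioo u v)) ∧
    ∫ x, x ∂(ν : Measure ℝ) = 0 ∧
    HasSum (fun m : ℕ => (m.divisors.card : ℝ) ^ 2 / (4 * Real.pi ^ 2) * (m : ℝ) ^ (-(3 / 2) : ℝ)) (∫ x, x ^ 2 ∂(ν : Measure ℝ)) ∧
    (∀ c₁ c₂ K s : ℝ, 0 < c₁ → 1 / 3 < s → ∀ f : ℝ → ℝ, Continuous f → (∃ C : ℝ, ∀ x, |f x| ≤ C * (1 + x ^ 2)) → ∀ η : ℝ, 0 < η →
      ∃ T₀ : ℝ, ∀ T, T₀ ≤ T → ∀ μ : Measure ℝ, IsProbabilityMeasure μ → (∀ᵐ x ∂μ, c₁ ≤ x ∧ x ≤ c₂) →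
        (∀ t : ℝ, T ^ (1 / 20 : ℝ) ≤ |t| → ‖∫ x, Complex.exp (((t * x : ℝ) : ℂ) * Complex.I) ∂μ‖ ≤ K * |t| ^ (-s)) →
        |∫ x, f (Ed (T * x)) ∂μ - ∫ x, f x ∂(ν : Measure ℝ)| ≤ η) ∧
    ∀ (a b : ℕ → ℝ) (δ : ℝ), 0 < δ → (∀ n, a n + δ ≤ a (n + 1)) → (∀ n, 0 < b n) → Monotone b →
      ∀ᵐ α : ℝ, 1 < α → ∀ (k : ℕ) (f : (Fin k → ℝ) → ℝ), Continuous f →
        (∃ (C : ℝ) (p : ℕ), ∀ x, |f x| ≤ C * (1 + ‖x‖ ^ p)) →
        Integrable f (Measure.pi fun _ : Fin k => (ν : Measure ℝ)) ∧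
        Tendsto (fun N : ℕ => (∑ n ∈ Finset.range N, f (fun j => Ed (√(b n * α ^ (a n) * α ^ (j:ℕ))))) / (N:ℝ)) atTop
          (𝓝 (∫ x, f x ∂(Measure.pi fun _ : Fin k => (ν : Measure ℝ)))) := by
  classical
  obtain ⟨α, hα0, hαt, hα⟩ := Pool.Agent.R373.NFI.generic2
  have hP : ∀ n : ℕ, 0 < α ^ 2 / 4 * (n : ℝ) ^ 2 + α ^ 2 / 2 * n + α ^ 2 / 4 := fun n => by positivity
  obtain ⟨ν, G, h1, h2, h3, h4, h5, h6, _, _, _, h9⟩ := Pool.Agent.H383.Div.distr3 vor (show 0 < α ^ 2 / 4 by positivity) hP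
  have hsq : ∀ n : ℕ, √(α ^ 2 / 4 * (n : ℝ) ^ 2 + α ^ 2 / 2 * n + α ^ 2 / 4) = (α + n * α) / 2 := by
    intro n
    rw [show α ^ 2 / 4 * (n : ℝ) ^ 2 + α ^ 2 / 2 * n + α ^ 2 / 4 = ((α + n * α) / 2) ^ 2 by ring]
    exact Real.sqrt_sq (by positivity)
  have hEn : ∀ n : ℕ, Dx (α ^ 2 / 4 * (n : ℝ) ^ 2 + α ^ 2 / 2 * n + α ^ 2 / 4) / (α ^ 2 / 4 * (n : ℝ) ^ 2 + α ^ 2 / 2 * n + α ^ 2 / 4) ^ (1 / 4 : ℝ) = E2 (α + n * α) := by
    intro n
    rw [← Ed_quad (hP n).le, hsq]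
    rfl
  have hAp : Pool.Agent.H383.Gen.Ap ad (Real.pi / 4) (fun n : ℕ => E2 (α + n * α)) α α := by
    obtain ⟨C0, hC0, hS'⟩ := (E2_SandW vor).sand
    exact Pool.Agent.H383.GW.ap_of ad_Bdw2.Bd ad_zero wd_Wt hC0 hS' hα0 α (Rn := fun n : ℕ => α + n * α) ⟨0, fun n => by simp⟩
  have hlim : ∀ f : ℝ → ℝ, Continuous f → (∃ C : ℝ, ∀ x : ℝ, |f x| ≤ C * (1 + x ^ 2)) →
      Tendsto (rm (fun n : ℕ => f (E2 (α + n * α)))) atTop (𝓝 (∫ x, f x ∂(ν : Measure ℝ))) := by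
    intro f hf hC
    rw [Metric.tendsto_atTop]
    intro ε hε
    obtain ⟨N₀, hN₀⟩ := h6 f hf hC 1 one_pos (ε / 2) (by linarith)
    refine ⟨N₀, fun N hN => ?_⟩
    have h10 := hN₀ N hN 0 (by
      rw [Nat.cast_zero, Real.zero_rpow (by norm_num)]
      exact Nat.cast_nonneg N)
    rw [Real.dist_eq]
    simp only [hEn, zero_add, ← Finset.range_eq_Ico] at h10
    unfold rm
    linarith
  refine ⟨ν, G, h1, h2, h3, h4, ?_, ?_, ?_, ?_⟩
  · rw [h9]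
    refine (tsum_congr (g := fun _ : ℕ => (0 : ℝ)) fun m => ?_).trans tsum_zero
    rw [if_neg]
    rintro ⟨hm, k, hk⟩
    apply no_res hα0 hα hm
    refine ⟨k, ?_⟩
    rw [← hk, show α ^ 2 / 4 * (m : ℝ) = (α / 2) ^ 2 * m by ring, Real.sqrt_mul (sq_nonneg _), Real.sqrt_sq (by positivity)]
    ring
  · have h7 := second hα0 hα ad_Bdw2.Bd hAp (hlim (fun x => x ^ 2) (by fun_prop) ⟨1, fun x => by
      rw [abs_of_nonneg (sq_nonneg x)]
      linarith⟩)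
    convert h7 using 1
    funext m
    rcases Nat.eq_zero_or_pos m with rfl | hm
    · rw [if_neg (by norm_num), Nat.cast_zero, Real.zero_rpow (by norm_num), mul_zero]
    · have hm0 : (0 : ℝ) < m := by exact_mod_cast hm
      rw [if_pos (by omega)]
      unfold ad dv
      have e1 : ((m : ℝ) ^ (-(3 / 4) : ℝ)) ^ 2 = (m : ℝ) ^ (-(3 / 2) : ℝ) := by
        rw [← Real.rpow_natCast, ← Real.rpow_mul hm0.le]
        norm_num
      have e2 : (√2 : ℝ) ^ 2 = 2 := Real.sq_sqrt (by norm_num)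
      have hpi := Real.pi_ne_zero
      rw [mul_pow, mul_pow, e1, div_pow, mul_pow, e2, one_pow]
      field_simp
      ring
  · intro c₁ c₂ K s hc₁ hs f hf hC η hη
    obtain ⟨T₀, hT₀⟩ := unif ad_Bdw2 ad_zero wd_Wt (E2_SandW vor) E2_meas E2_bdd hα0 hα (ν : Measure ℝ) hlim two_pos c₁ c₂ K s hc₁ hs f hf hC η hη
    refine ⟨T₀, fun T hT μ hμ hsupp hdec => ?_⟩
    have h10 := hT₀ T hT μ hμ hsupp hdec
    have e1 : ∀ x, E2 (2 * (T * x)) = Ed (T * x) := by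
      intro x
      unfold E2
      congr 1
      ring
    simp_rw [e1] at h10
    exact h10
  · obtain ⟨C0, hC0, hS'⟩ := (E2_SandW vor).sand
    have hX : Ctx E2 ad (Real.pi / 4) := Ctx.of ad_Bdw2.Bd ad_zero wd_Wt hC0 hS' E2_meas
    intro av b δ hδ hgap hb hmono
    have h4' := iid_alpha hX (hmu_of ad_Bdw2.Bd ad_zero wd_Wt hC0 hS' hα0 hαt α (fun f hf hC => hlim f hf hC)) hδ hgap
      (fun n => mul_pos two_pos (Real.sqrt_pos.2 (hb n)))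
      (fun i j hij => mul_le_mul_of_nonneg_left (Real.sqrt_le_sqrt (hmono hij)) two_pos.le)
    filter_upwards [Pool.Agent.R373.NFI.ae_sq h4'] with β hβ hβ1
    have hβ0 : 0 < β := by linarith
    have hs1 : 1 < √β := by
      rw [Real.lt_sqrt (by norm_num)]
      linarith
    have h7 := hβ hβ0 hs1
    intro k f hf hC
    refine ⟨(h7 k f hf hC).1, ?_⟩
    refine (h7 k f hf hC).2.congr fun N => ?_
    congr 1
    refine Finset.sum_congr rfl fun n _ => ?_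
    congr 1
    funext j
    have e1 : √(β ^ (av n)) = (√β) ^ (av n) := by
      rw [Real.sqrt_eq_rpow, Real.sqrt_eq_rpow, ← Real.rpow_mul hβ0.le, ← Real.rpow_mul hβ0.le, mul_comm]
    have e2 : √(β ^ (j:ℕ)) = (√β) ^ (j:ℕ) := by
      rw [Real.sqrt_eq_iff_mul_self_eq (by positivity) (by positivity), ← mul_pow, Real.mul_self_sqrt hβ0.le]
    have hbn := hb n
    unfold E2
    congr 1
    rw [Real.sqrt_mul (by positivity), Real.sqrt_mul hbn.le, e1, e2]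
    ring

end Pool.Agent.D0H48.Pz
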